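import Pool.Agent.H41.CUBE.JStmts

/-!
# Cube project (MP_47888e_al), block TAME, part J, module JFS

The Frobenius compatibility of `J` in polynomial form.
-/

set_option autoImplicit false

open Finset MvPolynomial Pool.CM

namespace Pool.CUBE

namespace JFSaux

section
variable {B : Type} [CommRing B]

/-- the substitution `s ↦ 1 / T` -/
noncomputable def thP (B : Type) [CommRing B] : Polynomial B →+* LaurentSeries B :=
  Polynomial.eval₂RingHom (HahnSeries.C : B →+* LaurentSeries B) (HahnSeries.single (-1) 1)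

theorem thP_C (b : B) : thP B (Polynomial.C b) = HahnSeries.C b := by
  change Polynomial.eval₂ _ _ (Polynomial.C b) = _
  rw [Polynomial.eval₂_C]

theorem thP_X : thP B Polynomial.X = HahnSeries.single (-1) 1 := by
  change Polynomial.eval₂ _ _ Polynomial.X = _
  rw [Polynomial.eval₂_X]

theorem thP_eq (g : Polynomial B) : thP B g =
    ∑ k ∈ g.support, HahnSeries.single (-(k : ℤ)) (g.coeff k) := by
  change Polynomial.eval₂ _ _ g = _
  rw [Polynomial.eval₂_eq_sum, Polynomial.sum_def]
  refine Finset.sum_congr rfl fun k _ => ?_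
  rw [HahnSeries.single_pow, one_pow, HahnSeries.C_apply, HahnSeries.single_mul_single, mul_one,
    zero_add]
  congr 1
  rw [nsmul_eq_mul, mul_neg, mul_one]

theorem thP_mul_coeff (g : Polynomial B) (f : LaurentSeries B) (l : ℤ) :
    (thP B g * f).coeff l = ∑ k ∈ g.support, g.coeff k * f.coeff (l + k) := by
  rw [thP_eq, Finset.sum_mul, HahnSeries.coeff_sum]
  refine Finset.sum_congr rfl fun k _ => ?_
  rw [HahnSeries.coeff_single_mul, sub_neg_eq_add]

theorem thP_phi (φ : B →+* B) (p : ℕ) (hp : 0 < p) :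
    (thP B).comp ((Polynomial.expand B p).toRingHom.comp (Polynomial.mapRingHom φ)) =
      (FUN.phiL φ p hp).comp (thP B) := by
  refine Polynomial.ringHom_ext (fun c => ?_) ?_
  · rw [RingHom.comp_apply, RingHom.comp_apply, RingHom.comp_apply, thP_C, FUN.phiL_C]
    change thP B (Polynomial.expand B p (Polynomial.map φ (Polynomial.C c))) = _
    rw [Polynomial.map_C, Polynomial.expand_C, thP_C]
  · rw [RingHom.comp_apply, RingHom.comp_apply, RingHom.comp_apply, thP_X]
    change thP B (Polynomial.expand B p (Polynomial.map φ Polynomial.X)) = _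
    rw [Polynomial.map_X, Polynomial.expand_X, map_pow, thP_X, HahnSeries.single_pow, one_pow]
    ext k
    by_cases hk : (p : ℤ) ∣ k
    · obtain ⟨b, rfl⟩ := hk
      rw [FUN.phiL_coeff_mul, HahnSeries.coeff_single, HahnSeries.coeff_single]
      have : (p : ℤ) * b = p • (-1 : ℤ) ↔ b = -1 := by
        rw [nsmul_eq_mul]
        exact ⟨fun h => mul_left_cancel₀ (by exact_mod_cast hp.ne') h, fun h => by rw [h]⟩
      by_cases hb : b = -1
      · rw [if_pos hb, if_pos (this.2 hb), map_one]
      · rw [if_neg hb, if_neg (fun h => hb (this.1 h)), map_zero]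
    · rw [FUN.phiL_coeff_not φ p hp _ k hk, HahnSeries.coeff_single, if_neg]
      rintro rfl
      exact hk ⟨-1, by rw [nsmul_eq_mul]⟩

theorem natCast_pow_mul_coeff (p n : ℕ) (f : LaurentSeries B) (k : ℤ) :
    ((p : LaurentSeries B) ^ n * f).coeff k = (p : B) ^ n * f.coeff k := by
  have h2 : (p : LaurentSeries B) ^ n = HahnSeries.C ((p : B) ^ n) := by
    rw [map_pow, map_natCast]
  rw [h2, HahnSeries.C_apply, HahnSeries.coeff_single_zero_mul]

theorem phiL_coeff (φ : B →+* B) (p : ℕ) (hp : 0 < p) (f : LaurentSeries B) (m : ℕ) :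
    (FUN.phiL φ p hp f).coeff (m : ℤ) =
      if p ∣ m then φ (f.coeff ((m / p : ℕ) : ℤ)) else 0 := by
  split_ifs with h
  · obtain ⟨b, rfl⟩ := h
    rw [Nat.mul_div_cancel_left _ hp]
    push_cast
    exact FUN.phiL_coeff_mul φ p hp f b
  · exact FUN.phiL_coeff_not φ p hp f m (by exact_mod_cast h)

end

section
variable {n : ℕ} {R S : Type} [CommRing R] [CommRing S]

theorem psi_map (θ : R →+* S) (p : ℕ) (g : Poly n R) : map θ (psi p g) = psi p (map θ g) := by
  classical
  induction g using MvPolynomial.induction_on' with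
  | add g1 g2 h1 h2 => rw [map_add, map_add, map_add, map_add, h1, h2]
  | monomial a s =>
    rw [map_monomial, psi_monomial, psi_monomial]
    split_ifs
    · rw [map_monomial]
    · rw [map_zero]

theorem rho0_map (θ : R →+* S) (p D J : ℕ) (γ : ℕ → R) (P E : Poly n R)
    (a : Fin (n + 1) →₀ ℕ) :
    map θ (rho0 p D J γ P E (monomial a 1)) =
      rho0 p D J (fun j => θ (γ j)) (map θ P) (map θ E) (monomial a 1) := by
  have hsm : ∀ (c : R) (g : Poly n R), map θ (c • g) = θ c • map θ g := fun c g => by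
    rw [smul_eq_C_mul, smul_eq_C_mul, map_mul, map_C]
  rw [rho0, rho0, linMon_monomial, linMon_monomial, one_smul, one_smul]
  split_ifs with h
  · rw [hsm, map_sum, map_natCast]
    congr 1
    refine Finset.sum_congr rfl fun j _ => ?_
    rw [hsm, psi_map, map_mul θ, map_pow θ, map_neg, map_one, map_mul (MvPolynomial.map θ),
      map_mul (MvPolynomial.map θ), map_pow (MvPolynomial.map θ), map_pow (MvPolynomial.map θ),
      map_monomial, map_one]
  · rw [map_zero]

end

section
variable {n : ℕ} {B : Type} [CommRing B] [Algebra ℚ B]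

theorem jL_coeff_succ (D : ℕ) (X1 : Poly n B) (a : Fin (n + 1) →₀ ℕ) (m : ℕ) :
    (jL D X1 a).coeff ((m : ℕ) : ℤ) = if m = 0 then 0 else aN D X1 (m - 1) (monomial a 1) := by
  rw [jL, HahnSeries.ofPowerSeries_apply_coeff, PowerSeries.coeff_mk]

theorem JL_coeff (D : ℕ) (X1 : Poly n B) (a : Fin (n + 1) →₀ ℕ) (N : ℕ) :
    (JL D X1 (monomial a 1)).coeff ((N + 1 : ℕ) : ℤ) = aN D X1 N (monomial a 1) := by
  rw [JL, linMon_monomial, one_smul, jL_coeff_succ, if_neg (by omega), Nat.add_sub_cancel]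

theorem JLp_map (D : ℕ) (X1 : Poly n B) (φ : B →+* B) (p : ℕ) (hp : 0 < p)
    (h : Poly n (Polynomial B)) :
    JLp D X1 φ p hp (map (thP B) h) =
      ∑ b ∈ h.support, thP B (coeff b h) * FUN.phiL φ p hp (jL D X1 b) := by
  conv_lhs => rw [h.as_sum]
  rw [map_sum, map_sum]
  refine Finset.sum_congr rfl fun b _ => ?_
  rw [map_monomial, JLp, linMon_monomial, smul_eq_mul]

end

end JFSaux

open JFSaux

theorem JFS_proof (hJF : JFStmt) : JFSStmt := by
  intro n D J C hD hJ
  obtain ⟨p0, hp0⟩ := hJF n D J (C + 1) hD hJ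
  refine ⟨p0, ?_⟩
  intro B _ _ O0 φ p hp hpp hinv hφ1 hφ2 X1 hX1 hX1O γ hγ P EL hP hPE m a hm1 hm2 ham N hN
  have hPL : map (thP B) P = PL D X1 := by
    rw [hP, PL, map_sub, map_mul, map_C, thP_X, map_pow, MvPolynomial.map_map]
    congr 2
    · rw [Sg, Sg, map_sum]
      refine congrArg (· ^ D) (Finset.sum_congr rfl fun i _ => ?_)
      rw [map_X]
    · have e : (thP B).comp Polynomial.C = (HahnSeries.C : B →+* LaurentSeries B) :=
        RingHom.ext fun b => thP_C b
      rw [e]
  have h1 : PL D X1 ^ p = expand p (map (FUN.phiL φ p hp.pos) (PL D X1)) +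
      (p : Poly n (LaurentSeries B)) * map (thP B) EL := by
    rw [← hPL, ← map_pow, hPE, map_add, map_mul, map_natCast, map_expand,
      MvPolynomial.map_map, MvPolynomial.map_map, thP_phi φ p hp.pos]
  have h2 : ∀ j, (j.factorial : LaurentSeries B) * thP B (γ j) = (p : LaurentSeries B) ^ j := by
    intro j
    rw [← map_natCast (thP B) j.factorial, ← map_mul, hγ, map_pow, map_natCast]
  have hk : ((N + 1 : ℕ) : ℤ) ≤ ((C + 1 : ℕ) : ℤ) * p := by
    have := hp.pos
    have h : N + 1 ≤ (C + 1) * p := by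
      rw [Nat.add_mul, one_mul]
      omega
    exact_mod_cast h
  obtain ⟨y, hy, h3⟩ := hp0 B O0 φ p hp hpp hinv hφ1 hφ2 X1 hX1 hX1O (fun j => thP B (γ j)) h2
    (map (thP B) EL) h1 m a hm1 hm2 ham ((N + 1 : ℕ) : ℤ) hk
  refine ⟨y, hy, ?_⟩
  rw [← h3, HahnSeries.coeff_sub, natCast_pow_mul_coeff, JL_coeff, ← hPL, ← rho0_map, JLp_map,
    HahnSeries.coeff_sum]
  congr 1
  refine Finset.sum_congr rfl fun b _ => ?_
  rw [thP_mul_coeff]
  refine Finset.sum_congr rfl fun k _ => ?_
  have e : ((N + 1 : ℕ) : ℤ) + (k : ℤ) = ((N + 1 + k : ℕ) : ℤ) := by push_cast; ring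
  rw [e, phiL_coeff]
  congr 1
  split_ifs with h
  · rw [jL_coeff_succ, if_neg]
    have := Nat.div_pos (Nat.le_of_dvd (by omega) h) hp.pos
    omega
  · rfl

end Pool.CUBE
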