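import Pool.Agent.H41.CUBE.JStmts

/-!
# Cube project (MP_47888e_al), block TAME, part J, module JTN

`J2` and the derivations of the coefficient field.
-/

set_option autoImplicit false

open Finset MvPolynomial Pool.CM

namespace Pool.CUBE

namespace JTNaux

/-! ### derivations of Laurent series -/

/-- derivations from additive maps -/
noncomputable def mkDer {R : Type} [CommRing R] (f : R →+ R)
    (h : ∀ x y, f (x * y) = x * f y + y * f x) : DerZ R :=
  Derivation.mk' f.toIntLinearMap (fun x y => h x y)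

theorem mkDer_apply {R : Type} [CommRing R] (f : R →+ R)
    (h : ∀ x y, f (x * y) = x * f y + y * f x) (x : R) : mkDer f h x = f x := rfl

theorem leib {R : Type} [CommRing R] (d : DerZ R) (x y : R) : d (x * y) = x * d y + y * d x := by
  rw [Derivation.leibniz, smul_eq_mul, smul_eq_mul]

section
variable {B : Type} [CommRing B]

/-- the additive map acting on the coefficients by maps depending on the degree -/
noncomputable def ladd (D : ℤ → B →+ B) : LaurentSeries B →+ LaurentSeries B where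
  toFun f :=
    { coeff := fun k => D k (f.coeff k)
      isPWO_support' := f.isPWO_support'.mono fun k hk => by
        rw [Function.mem_support] at hk ⊢
        intro h0
        exact hk (by rw [h0, map_zero]) }
  map_zero' := by
    ext k
    simp
  map_add' f g := by
    ext k
    simp

theorem ladd_coeff (D : ℤ → B →+ B) (f : LaurentSeries B) (k : ℤ) :
    (ladd D f).coeff k = D k (f.coeff k) := rfl

/-- a derivation of the ring of Laurent series -/
noncomputable def lder (D : ℤ → B →+ B)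
    (h : ∀ j k x y, D (j + k) (x * y) = x * D k y + y * D j x) : DerZ (LaurentSeries B) :=
  mkDer (ladd D) (by
    intro f g
    rw [mul_comm g]
    ext k
    have hf : ∀ l < f.order, f.coeff l = 0 := fun l hl => HahnSeries.coeff_eq_zero_of_lt_order hl
    have hg : ∀ l < g.order, g.coeff l = 0 := fun l hl => HahnSeries.coeff_eq_zero_of_lt_order hl
    have hf' : ∀ l < f.order, (ladd D f).coeff l = 0 := fun l hl => by
      rw [ladd_coeff, hf l hl, map_zero]
    have hg' : ∀ l < g.order, (ladd D g).coeff l = 0 := fun l hl => by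
      rw [ladd_coeff, hg l hl, map_zero]
    rw [ladd_coeff, HahnSeries.coeff_add, coeff_mul_IccR hf hg, coeff_mul_IccR hf hg',
      coeff_mul_IccR hf' hg, map_sum, ← Finset.sum_add_distrib]
    refine Finset.sum_congr rfl fun j _ => ?_
    have e : k = j + (k - j) := by ring
    conv_lhs => rw [e]
    rw [h, ← e, ladd_coeff, ladd_coeff]
    ring)

theorem lder_coeff (D : ℤ → B →+ B)
    (h : ∀ j k x y, D (j + k) (x * y) = x * D k y + y * D j x) (f : LaurentSeries B) (k : ℤ) :
    (lder D h f).coeff k = D k (f.coeff k) := by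
  rw [lder, mkDer_apply, ladd_coeff]

/-- coefficientwise action of a derivation -/
noncomputable def lcD (δ : DerZ B) : DerZ (LaurentSeries B) :=
  lder (fun _ => (δ : B →+ B)) (fun _ _ x y => by
    change δ (x * y) = x * δ y + y * δ x
    rw [Derivation.leibniz, smul_eq_mul, smul_eq_mul])

theorem lcD_coeff (δ : DerZ B) (f : LaurentSeries B) (k : ℤ) :
    (lcD δ f).coeff k = δ (f.coeff k) := lder_coeff _ _ _ _

/-- `T d/dT` -/
noncomputable def ltD (B : Type) [CommRing B] : DerZ (LaurentSeries B) :=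
  lder (fun k => AddMonoidHom.mulLeft (k : B)) (fun j k x y => by
    change ((j + k : ℤ) : B) * (x * y) = x * ((k : B) * y) + y * ((j : B) * x)
    push_cast
    ring)

theorem ltD_coeff (f : LaurentSeries B) (k : ℤ) : (ltD B f).coeff k = (k : B) * f.coeff k :=
  lder_coeff _ _ _ _

/-- `- T d/dT` -/
noncomputable def lsD (B : Type) [CommRing B] : DerZ (LaurentSeries B) :=
  lder (fun k => AddMonoidHom.mulLeft (-(k : B))) (fun j k x y => by
    change (-((j + k : ℤ) : B)) * (x * y) = x * (-(k : B) * y) + y * (-(j : B) * x)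
    push_cast
    ring)

theorem lsD_coeff (f : LaurentSeries B) (k : ℤ) : (lsD B f).coeff k = -(k : B) * f.coeff k :=
  lder_coeff _ _ _ _

theorem intCast_mul_coeff (m : ℤ) (f : LaurentSeries B) (k : ℤ) :
    ((m : LaurentSeries B) * f).coeff k = (m : B) * f.coeff k := by
  rw [← zsmul_eq_mul, ← zsmul_eq_mul]
  exact congrFun (map_zsmul (⟨⟨HahnSeries.coeff, rfl⟩, fun _ _ => rfl⟩ :
    LaurentSeries B →+ (ℤ → B)) m f) k

end

/-! ### comparison of derivations -/

/-- a ring hom from a fraction field is compatible with derivations if it is on the ring -/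
theorem frac_compat {R F L : Type} [CommRing R] [IsDomain R] [Field F] [Algebra R F]
    [IsFractionRing R F] [Field L] (ι : F →+* L) (δ : DerZ F) (d : DerZ L)
    (h : ∀ r : R, ι (δ (algebraMap R F r)) = d (ι (algebraMap R F r))) (x : F) :
    ι (δ x) = d (ι x) := by
  obtain ⟨u, w, hw, rfl⟩ := IsFractionRing.div_surjective (A := R) x
  have hw0 : algebraMap R F w ≠ 0 := by
    intro h0
    exact nonZeroDivisors.coe_ne_zero ⟨w, hw⟩ ((IsFractionRing.injective R F)
      (by rw [h0, map_zero]))
  set x : F := algebraMap R F u / algebraMap R F w with hx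
  have h1 : x * algebraMap R F w = algebraMap R F u := div_mul_cancel₀ _ hw0
  have h2 := h u
  rw [← h1, Derivation.leibniz, map_mul ι, Derivation.leibniz, map_add, smul_eq_mul, smul_eq_mul,
    smul_eq_mul, smul_eq_mul, map_mul, map_mul, h w] at h2
  have h3 := add_left_cancel h2
  exact mul_left_cancel₀ ((map_ne_zero ι).2 hw0) h3

section
variable {E : Type} [Field E]

/-- `nabP` -/
noncomputable def nabZ (E : Type) [Field E] : DerZ (Polynomial E) := nabP E

theorem nabZ_coeff (g : Polynomial E) (m : ℕ) : (nabZ E g).coeff m = (m : E) * g.coeff m :=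
  nabP_coeff g m

/-- `dCoeff` -/
noncomputable def dcZ (δ : DerZ E) : DerZ (Polynomial E) := dCoeff δ

theorem dcZ_coeff (δ : DerZ E) (g : Polynomial E) (m : ℕ) :
    (dcZ δ g).coeff m = δ (g.coeff m) := dCoeff_coeff δ g m

theorem ex_nab (x : RatFunc E) : ex E (fd (nabZ E) x) = ltD E (ex E x) := by
  refine frac_compat (R := Polynomial E) (ex E) (fd (nabZ E)) (ltD E) (fun r => ?_) x
  rw [fd_algebraMap, ex_algebraMap, ex_algebraMap]
  ext k
  rw [ltD_coeff]
  rcases lt_or_ge k 0 with hk | hk
  · rw [exP_coeff_neg _ _ hk, exP_coeff_neg _ _ hk, mul_zero]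
  · obtain ⟨m, rfl⟩ := Int.eq_ofNat_of_zero_le hk
    rw [exP_coeff_nat, exP_coeff_nat, nabZ_coeff, Int.cast_natCast]

theorem ex_dCoeff (δ : DerZ E) (x : RatFunc E) :
    ex E (fd (dcZ δ) x) = lcD δ (ex E x) := by
  refine frac_compat (R := Polynomial E) (ex E) (fd (dcZ δ)) (lcD δ) (fun r => ?_) x
  rw [fd_algebraMap, ex_algebraMap, ex_algebraMap]
  ext k
  rw [lcD_coeff]
  rcases lt_or_ge k 0 with hk | hk
  · rw [exP_coeff_neg _ _ hk, exP_coeff_neg _ _ hk, map_zero]
  · obtain ⟨m, rfl⟩ := Int.eq_ofNat_of_zero_le hk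
    rw [exP_coeff_nat, exP_coeff_nat, dcZ_coeff]

theorem infP_coeff_pos (g : Polynomial E) (k : ℤ) (hk : 0 < k) : (D.infP E g).coeff k = 0 := by
  have h := infP_mul_coeff g (1 : LaurentSeries E) k
  rw [mul_one] at h
  rw [h]
  refine Finset.sum_eq_zero fun j _ => ?_
  rw [HahnSeries.coeff_one, if_neg (by omega), mul_zero]

theorem exInf_nab (x : RatFunc E) : D.exInf E (fd (nabZ E) x) = lsD E (D.exInf E x) := by
  refine frac_compat (R := Polynomial E) (D.exInf E) (fd (nabZ E)) (lsD E) (fun r => ?_) x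
  rw [fd_algebraMap, D.exInf_algebraMap, D.exInf_algebraMap]
  ext k
  rw [lsD_coeff]
  rcases lt_or_ge 0 k with hk | hk
  · rw [infP_coeff_pos _ _ hk, infP_coeff_pos _ _ hk, mul_zero]
  · obtain ⟨m, hm⟩ := Int.eq_ofNat_of_zero_le (neg_nonneg.2 hk)
    obtain rfl : k = -(m : ℤ) := by rw [← hm, neg_neg]
    rw [D.infP_coeff, D.infP_coeff, nabZ_coeff]
    push_cast
    ring

theorem exInf_dCoeff (δ : DerZ E) (x : RatFunc E) :
    D.exInf E (fd (dcZ δ) x) = lcD δ (D.exInf E x) := by
  refine frac_compat (R := Polynomial E) (D.exInf E) (fd (dcZ δ)) (lcD δ) (fun r => ?_) x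
  rw [fd_algebraMap, D.exInf_algebraMap, D.exInf_algebraMap]
  ext k
  rw [lcD_coeff]
  rcases lt_or_ge 0 k with hk | hk
  · rw [infP_coeff_pos _ _ hk, infP_coeff_pos _ _ hk, map_zero]
  · obtain ⟨m, hm⟩ := Int.eq_ofNat_of_zero_le (neg_nonneg.2 hk)
    obtain rfl : k = -(m : ℤ) := by rw [← hm, neg_neg]
    rw [D.infP_coeff, D.infP_coeff, dcZ_coeff]

theorem exTl_nab (x : RatFunc (RatFunc E)) :
    exTl E (fd (nabZ (RatFunc E)) x) = ltD (LaurentSeries E) (exTl E x) := by
  change FUN.mapL (D.exInf E) (ex (RatFunc E) (fd (nabZ (RatFunc E)) x)) =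
    ltD (LaurentSeries E) (FUN.mapL (D.exInf E) (ex (RatFunc E) x))
  rw [ex_nab]
  ext k : 2
  rw [FUN.mapL_coeff, ltD_coeff, ltD_coeff, FUN.mapL_coeff, map_mul, map_intCast]

theorem exTl_dCoeff (δ : DerZ (RatFunc E)) (d : DerZ (LaurentSeries E))
    (h : ∀ x, D.exInf E (δ x) = d (D.exInf E x)) (x : RatFunc (RatFunc E)) :
    exTl E (fd (dcZ δ) x) = lcD d (exTl E x) := by
  change FUN.mapL (D.exInf E) (ex (RatFunc E) (fd (dcZ δ) x)) =
    lcD d (FUN.mapL (D.exInf E) (ex (RatFunc E) x))
  rw [ex_dCoeff]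
  ext k : 2
  rw [FUN.mapL_coeff, lcD_coeff, lcD_coeff, FUN.mapL_coeff, h]

/-- Laurent series in the outer variable without negative coefficients -/
theorem swp_ext (f : LaurentSeries (Polynomial E)) (g : LaurentSeries (LaurentSeries E))
    (h0 : ∀ j < 0, g.coeff j = 0)
    (h1 : ∀ (j : ℕ) (k : ℤ), (f.coeff k).coeff j = (g.coeff (j : ℤ)).coeff k) :
    swp E f = g := by
  ext j k
  rcases lt_or_ge j 0 with hj | hj
  · rw [swp_coeff_neg _ _ hj, h0 _ hj]
  · obtain ⟨m, rfl⟩ := Int.eq_ofNat_of_zero_le hj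
    rw [swp_coeff, h1]

theorem swp_nab (f : LaurentSeries (Polynomial E)) :
    swp E (lcD (nabZ E) f) = ltD (LaurentSeries E) (swp E f) := by
  refine swp_ext _ _ (fun j hj => ?_) (fun j k => ?_)
  · rw [ltD_coeff, swp_coeff_neg _ _ hj, mul_zero]
  · rw [lcD_coeff, nabZ_coeff, ltD_coeff, intCast_mul_coeff, swp_coeff, Int.cast_natCast]

theorem swp_ltD (f : LaurentSeries (Polynomial E)) :
    swp E (ltD (Polynomial E) f) = lcD (ltD E) (swp E f) := by
  refine swp_ext _ _ (fun j hj => ?_) (fun j k => ?_)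
  · rw [lcD_coeff, swp_coeff_neg _ _ hj, map_zero]
  · rw [ltD_coeff, lcD_coeff, ltD_coeff, swp_coeff, ← zsmul_eq_mul, ← zsmul_eq_mul,
      Polynomial.coeff_smul]

theorem swp_dCoeff (δ : DerZ E) (f : LaurentSeries (Polynomial E)) :
    swp E (lcD (dcZ δ) f) = lcD (lcD δ) (swp E f) := by
  refine swp_ext _ _ (fun j hj => ?_) (fun j k => ?_)
  · rw [lcD_coeff, swp_coeff_neg _ _ hj, map_zero]
  · rw [lcD_coeff, dcZ_coeff, lcD_coeff, lcD_coeff, swp_coeff]

end

/-! ### the connection and ring homs -/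

section
variable {n : ℕ} {R S : Type} [CommRing R] [CommRing S]

theorem map_cD (φ : R →+* S) (δ : DerZ R) (d : DerZ S) (h : ∀ x, φ (δ x) = d (φ x))
    (g : Poly n R) : map φ (cD δ g) = cD d (map φ g) := by
  induction g using MvPolynomial.induction_on' with
  | add g1 g2 h1 h2 => rw [map_add, map_add, map_add, map_add, h1, h2]
  | monomial a s => rw [cD_monomial, map_monomial, map_monomial, cD_monomial, h]

theorem map_nab0 (φ : R →+* S) (δ : DerZ R) (d : DerZ S) (h : ∀ x, φ (δ x) = d (φ x))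
    (P g : Poly n R) : map φ (nab0 δ P g) = nab0 d (map φ P) (map φ g) := by
  rw [nab0_apply, nab0_apply, map_sub, map_mul, map_cD φ δ d h, map_cD φ δ d h]

theorem cD_neg (δ δ' : DerZ R) (h : ∀ x, δ' x = -δ x) (g : Poly n R) : cD δ' g = -cD δ g := by
  induction g using MvPolynomial.induction_on' with
  | add g1 g2 h1 h2 => rw [map_add, map_add, h1, h2]; ring
  | monomial a s => rw [cD_monomial, cD_monomial, h, map_neg]

theorem nab0_neg (δ δ' : DerZ R) (h : ∀ x, δ' x = -δ x) (P g : Poly n R) :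
    nab0 δ' P g = -nab0 δ P g := by
  rw [nab0_apply, nab0_apply, cD_neg δ δ' h, cD_neg δ δ' h]
  ring

end

section
variable {n : ℕ} {E : Type} [Field E] [CharZero E]

theorem J2_map (D : ℕ) (N : Poly n E) (h : Poly n (LaurentSeries (Polynomial E))) :
    J2 D N (map (swp E) h) = swp E (JL D (X1p D N) h) := by
  induction h using MvPolynomial.induction_on' with
  | add g1 g2 h1 h2 => rw [map_add, map_add, map_add, map_add, h1, h2]
  | monomial a s =>
    rw [map_monomial, J2, JL, linMon_monomial, linMon_monomial, smul_eq_mul, smul_eq_mul, map_mul]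

/-- transport of the compatibility with derivations along `swp` -/
theorem J2_nab (D : ℕ) (N : Poly n E) (δ : DerZ (LaurentSeries (Polynomial E)))
    (d : DerZ (LaurentSeries (LaurentSeries E))) (h : ∀ x, swp E (δ x) = d (swp E x))
    (hJ : ∀ g, JL D (X1p D N) (nab0 δ (PL D (X1p D N)) g) = δ (JL D (X1p D N) g))
    (g : Poly n (LaurentSeries (LaurentSeries E))) :
    J2 D N (nab0 d (map (swp E) (PL D (X1p D N))) g) = d (J2 D N g) := by
  induction g using MvPolynomial.induction_on' with
  | add g1 g2 h1 h2 => rw [map_add, map_add, map_add, map_add, h1, h2]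
  | monomial a s =>
    have e1 : (monomial a s : Poly n (LaurentSeries (LaurentSeries E))) =
        s • map (swp E) (monomial a 1) := by
      rw [map_monomial, map_one, smul_monomial, smul_eq_mul, mul_one]
    rw [e1, nab0_smul, ← map_nab0 (swp E) δ d h, map_add, map_smul, map_smul, map_smul, J2_map,
      J2_map, hJ, h, smul_eq_mul, smul_eq_mul, smul_eq_mul, leib]
    ring

end

end JTNaux

open JTNaux

theorem JTN_proof (hJN : JNStmt) (hJT0 : JT0Stmt) : JTNStmt := by
  intro X E _ _ A n D hD N hN g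
  obtain ⟨h0, -⟩ := hJT0 E n D hD N hN
  have hX1 : (X1p D N).IsHomogeneous D := by
    refine IsHomogeneous.sub (hN.map _) ?_
    have h1 : (∑ i : Fin (n + 1), (MvPolynomial.X i : Poly n (Polynomial E)) ^ D).IsHomogeneous
        D := by
      refine IsHomogeneous.sum _ _ _ fun i _ => ?_
      simpa using (isHomogeneous_X (Polynomial E) i).pow D
    simpa using (isHomogeneous_C (Fin (n + 1)) (Polynomial.X : Polynomial E)).mul h1
  obtain ⟨hT, hC⟩ := hJN (Polynomial E) n D hD (X1p D N) hX1
  -- the general computation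
  have key : ∀ (δ : DerZ (RatFunc (RatFunc E))) (d : DerZ (LaurentSeries (LaurentSeries E))),
      (∀ x, exTl E (δ x) = d (exTl E x)) →
      (∀ g, J2 D N (nab0 d (map (swp E) (PL D (X1p D N))) g) = d (J2 D N g)) →
      J2 D N (map (exTl E) (nab0 δ (Psl D N) g)) = d (J2 D N (map (exTl E) g)) := by
    intro δ d h1 h2
    rw [map_nab0 (exTl E) δ d h1, h0, h2]
  refine ⟨?_, ?_, ?_⟩
  · intro k k'
    have h1 : J2 D N (map (exTl E) (nab0 (A.ext.ext.D none) (Psl D N) g)) =
        ltD (LaurentSeries E) (J2 D N (map (exTl E) g)) := by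
      refine key (A.ext.ext.D none) (ltD (LaurentSeries E)) (fun x => exTl_nab x) ?_
      exact J2_nab D N (lcD (nabZ E)) _ swp_nab (hC (nabZ E) (lcD (nabZ E)) fun _ _ => rfl)
    rw [h1, ltD_coeff, intCast_mul_coeff]
  · intro k k'
    have h1 : J2 D N (map (exTl E) (nab0 (A.ext.ext.D (some none)) (Psl D N) g)) =
        lcD (lsD E) (J2 D N (map (exTl E) g)) := by
      refine key (A.ext.ext.D (some none)) (lcD (lsD E))
        (fun x => exTl_dCoeff _ _ (fun y => exInf_nab y) x) ?_
      intro g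
      have h2 : ∀ x, lcD (lsD E) x = -lcD (ltD E) x := by
        intro x
        ext i j
        rw [lcD_coeff, lsD_coeff, HahnSeries.coeff_neg, HahnSeries.coeff_neg, lcD_coeff,
          ltD_coeff, neg_mul]
      have h3 := J2_nab D N (ltD (Polynomial E)) (lcD (ltD E)) swp_ltD
        (hT (ltD (Polynomial E)) fun _ _ => by rw [ltD_coeff]) g
      rw [nab0_neg _ _ h2, map_neg, h3, h2]
    rw [h1, lcD_coeff, lsD_coeff]
  · intro j k k'
    have h1 : J2 D N (map (exTl E) (nab0 (A.ext.ext.D (some (some j))) (Psl D N) g)) =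
        lcD (lcD (A.D j)) (J2 D N (map (exTl E) g)) := by
      refine key (A.ext.ext.D (some (some j))) (lcD (lcD (A.D j)))
        (fun x => exTl_dCoeff _ _ (fun y => exInf_dCoeff (A.D j) y) x) ?_
      exact J2_nab D N (lcD (dcZ (A.D j))) _ (swp_dCoeff (A.D j))
        (hC (dcZ (A.D j)) (lcD (dcZ (A.D j))) fun _ _ => rfl)
    rw [h1, lcD_coeff, lcD_coeff]

end Pool.CUBE
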